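import Pool.Agent.SKQ.Kit

/-!
# SKQ, row IDW: the energy identity
-/

set_option autoImplicit false
set_option linter.all false

namespace Pool.Agent.SKQ.H90

open Metric Set Filter Topology MeasureTheory
open scoped ENNReal
open Helper22QC Pool.Agent.SKQ

variable {n : ℕ}

/-- a positive lower bound on a compact set -/
theorem exists_mu {R K : ℝ} {f : E n → E n} {F : E n → Mt n} (h : Loc R K f F) {c : E n}
    (hc : c ∈ ball (0 : E n) R) {S : Set (E n)} (hS : IsCompact S) (hSR : S ⊆ ball 0 R)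
    (hcS : c ∉ S) : ∃ μ : ℝ, 0 < μ ∧ ∀ y ∈ S, μ ≤ ‖f y - f c‖ ∧ μ ≤ ‖y - c‖ := by
  rcases S.eq_empty_or_nonempty with hE | hne
  · refine ⟨1, one_pos, fun y hy => ?_⟩
    rw [hE] at hy
    exact absurd hy (notMem_empty y)
  · have hcont : ContinuousOn (fun y => min ‖f y - f c‖ ‖y - c‖) S := by
      refine ContinuousOn.inf ?_ ?_
      · exact ((h.cont.mono hSR).sub continuousOn_const).norm
      · exact (continuousOn_id.sub continuousOn_const).norm
    obtain ⟨y₀, hy₀, hmin⟩ := hS.exists_isMinOn hne hcont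
    refine ⟨min ‖f y₀ - f c‖ ‖y₀ - c‖, ?_, fun y hy => ?_⟩
    · have hyc : y₀ ≠ c := fun he => hcS (he ▸ hy₀)
      exact lt_min (norm_pos_iff.2 (h.ne (hSR hy₀) hc hyc)) (norm_pos_iff.2 (sub_ne_zero.2 hyc))
    · have h1 : min ‖f y₀ - f c‖ ‖y₀ - c‖ ≤ min ‖f y - f c‖ ‖y - c‖ := hmin hy
      exact ⟨h1.trans (min_le_left _ _), h1.trans (min_le_right _ _)⟩

/-- divergence of a translated field -/
theorem dv_comp_sub (G : E n → E n) (a z : E n) : dv (fun x => G (x - a)) z = dv G (z - a) := by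
  unfold dv
  refine Finset.sum_congr rfl (fun i _ => ?_)
  rw [fderiv_comp_sub]

theorem dv_gs (hSMO : SMOStmt) (hn : 1 ≤ n) {μ : ℝ} (hμ : 0 < μ) (a z : E n) (hz : μ ≤ ‖z - a‖) :
    dv (fun x : E n => gs μ (x - a)) z = 0 := by
  rw [dv_comp_sub]
  exact ((hSMO n μ hn hμ).2.2 _ hz).2.2.2

/-- the function used in the identities -/
noncomputable def Phi (f : E n → E n) (c : E n) (μ : ℝ) (χ : E n → ℝ) : E n × E n → ℝ :=
  fun p => χ p.1 * (lg μ (p.2 - f c) - lg μ (p.1 - c))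

theorem contDiff_Phi (hSMO : SMOStmt) (hn : 1 ≤ n) (f : E n → E n) (c : E n) {μ : ℝ} (hμ : 0 < μ)
    {χ : E n → ℝ} (hχ : ContDiff ℝ (⊤ : ℕ∞) χ) : ContDiff ℝ (⊤ : ℕ∞) (Phi f c μ χ) := by
  have hl : ContDiff ℝ (⊤ : ℕ∞) (lg μ : E n → ℝ) := (hSMO n μ hn hμ).1
  unfold Phi
  refine (hχ.comp contDiff_fst).mul (ContDiff.sub ?_ ?_)
  · exact hl.comp (contDiff_snd.sub contDiff_const)
  · exact hl.comp (contDiff_fst.sub contDiff_const)

theorem grc_Phi (hSMO : SMOStmt) (hn : 1 ≤ n) (f : E n → E n) (F : E n → Mt n) (c : E n) {μ : ℝ} (hμ : 0 < μ)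
    {χ : E n → ℝ} (hχ : ContDiff ℝ (⊤ : ℕ∞) χ) (y : E n) (h1 : μ ≤ ‖f y - f c‖) (h2 : μ ≤ ‖y - c‖) :
    grc (Phi f c μ χ) f F y = wf f c y • gr (fderiv ℝ χ y) + χ y • Wf f F c y := by
  obtain ⟨hl, -, hval⟩ := hSMO n μ hn hμ
  obtain ⟨a1, -, a3, -⟩ := hval _ h1
  obtain ⟨b1, -, b3, -⟩ := hval _ h2
  refine ext_inner_right ℝ fun v => ?_
  rw [inner_grc]
  have hld : Differentiable ℝ (lg μ : E n → ℝ) := hl.differentiable (by simp)
  have hχd : Differentiable ℝ χ := hχ.differentiable (by simp)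
  have hd1 : HasFDerivAt (fun p : E n × E n => χ p.1)
      ((fderiv ℝ χ y).comp (ContinuousLinearMap.fst ℝ (E n) (E n))) (y, f y) :=
    (hχd y).hasFDerivAt.comp (y, f y) (hasFDerivAt_fst)
  have hd2 : HasFDerivAt (fun p : E n × E n => lg μ (p.2 - f c))
      ((fderiv ℝ (lg μ : E n → ℝ) (f y - f c)).comp (ContinuousLinearMap.snd ℝ (E n) (E n))) (y, f y) := by
    have hs : HasFDerivAt (fun p : E n × E n => p.2 - f c) (ContinuousLinearMap.snd ℝ (E n) (E n)) (y, f y) :=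
      hasFDerivAt_snd.sub_const (f c)
    exact HasFDerivAt.comp (y, f y) (hld (f y - f c)).hasFDerivAt hs
  have hd3 : HasFDerivAt (fun p : E n × E n => lg μ (p.1 - c))
      ((fderiv ℝ (lg μ : E n → ℝ) (y - c)).comp (ContinuousLinearMap.fst ℝ (E n) (E n))) (y, f y) := by
    have hs : HasFDerivAt (fun p : E n × E n => p.1 - c) (ContinuousLinearMap.fst ℝ (E n) (E n)) (y, f y) :=
      hasFDerivAt_fst.sub_const c
    exact HasFDerivAt.comp (y, f y) (hld (y - c)).hasFDerivAt hs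
  have hd := hd1.mul (hd2.sub hd3)
  have hd' : fderiv ℝ (Phi f c μ χ) (y, f y) = _ := hd.fderiv
  rw [hd']
  simp only [ContinuousLinearMap.add_apply, ContinuousLinearMap.smul_apply, ContinuousLinearMap.sub_apply,
    ContinuousLinearMap.comp_apply, Pi.sub_apply, ContinuousLinearMap.coe_fst',
    ContinuousLinearMap.coe_snd', smul_eq_mul]
  rw [← inner_gr (fderiv ℝ (lg μ : E n → ℝ) (f y - f c)), ← inner_gr (fderiv ℝ (lg μ : E n → ℝ) (y - c)), a3, b3,
    ← inner_gr (fderiv ℝ χ y), a1, b1]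
  simp only [inner_add_left, inner_smul_left, wf, Wf, inner_sub_left, ContinuousLinearMap.adjoint_inner_left,
    conj_trivial]
  ring

theorem grc_of_notMem {f : E n → E n} {F : E n → Mt n} {Φ : E n × E n → ℝ} {S : Set (E n)}
    (hS : IsClosed S) (h : ∀ y, y ∉ S → ∀ z, Φ (y, z) = 0) (y : E n) (hy : y ∉ S) :
    grc Φ f F y = 0 := by
  have h1 : Φ =ᶠ[𝓝 (y, f y)] fun _ => (0 : ℝ) := by
    have ho : IsOpen {p : E n × E n | p.1 ∉ S} := hS.isOpen_compl.preimage continuous_fst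
    filter_upwards [ho.mem_nhds (show (y, f y) ∈ {p : E n × E n | p.1 ∉ S} from hy)] with p hp
    exact h p.1 hp p.2
  unfold grc
  rw [h1.fderiv_eq, fderiv_fun_const]
  simp [gr_zero]

theorem grc_fst (f : E n → E n) (F : E n → Mt n) {χ : E n → ℝ} (hχ : ContDiff ℝ (⊤ : ℕ∞) χ) (y : E n) :
    grc (fun p : E n × E n => χ p.1) f F y = gr (fderiv ℝ χ y) := by
  have hχd : Differentiable ℝ χ := hχ.differentiable (by simp)
  refine ext_inner_right ℝ fun v => ?_
  rw [inner_grc, inner_gr]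
  have hd1 : HasFDerivAt (fun p : E n × E n => χ p.1)
      ((fderiv ℝ χ y).comp (ContinuousLinearMap.fst ℝ (E n) (E n))) (y, f y) :=
    (hχd y).hasFDerivAt.comp (y, f y) (hasFDerivAt_fst)
  rw [hd1.fderiv]
  rfl

/-- IDW. -/
theorem idw (hNLG : NLGStmt) (hIBP : IBPStmt) (hSMO : SMOStmt) : IDWStmt := by
  intro n R K f F c χ hn hL hc hχ hcs hsR hcS
  obtain ⟨μ, hμ, hbd⟩ := exists_mu hL hc hcs hsR hcS
  obtain ⟨hl, hg, hval⟩ := hSMO n μ hn hμ
  have hSc : IsClosed (tsupport χ) := isClosed_tsupport χ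
  have hG : ContDiff ℝ (⊤ : ℕ∞) (fun z : E n => gs μ (z - f c)) :=
    hg.comp (contDiff_id.sub contDiff_const)
  have hA : ContDiff ℝ (⊤ : ℕ∞) (fun y : E n => gs μ (y - c)) :=
    hg.comp (contDiff_id.sub contDiff_const)
  have hP := contDiff_Phi hSMO hn f c hμ hχ
  have hχ0 : ∀ y, y ∉ tsupport χ → χ y = 0 := fun y hy => image_eq_zero_of_notMem_tsupport hy
  have hP0 : ∀ y, y ∉ tsupport χ → ∀ z, Phi f c μ χ (y, z) = 0 := by
    intro y hy z
    unfold Phi
    rw [hχ0 y hy, zero_mul]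
  have hQ : ContDiff ℝ (⊤ : ℕ∞) (fun p : E n × E n => χ p.1) := hχ.comp contDiff_fst
  have hQ0 : ∀ y, y ∉ tsupport χ → ∀ z : E n, (fun p : E n × E n => χ p.1) (y, z) = 0 :=
    fun y hy z => hχ0 y hy
  obtain ⟨i1, -, e1⟩ := hNLG n (ball 0 R) (tsupport χ) f (fun z => gs μ (z - f c)) F (Phi f c μ χ) hn
    isOpen_ball hL.sob hcs hsR hG hP hP0
  obtain ⟨i2, e2⟩ := hIBP n (ball 0 R) (tsupport χ) f (fun y => gs μ (y - c)) F (Phi f c μ χ) hn
    isOpen_ball hL.sob hcs hsR hA hP hP0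
  obtain ⟨j1, -, -⟩ := hNLG n (ball 0 R) (tsupport χ) f (fun z => gs μ (z - f c)) F (fun p => χ p.1) hn
    isOpen_ball hL.sob hcs hsR hG hQ hQ0
  obtain ⟨j2, -⟩ := hIBP n (ball 0 R) (tsupport χ) f (fun y => gs μ (y - c)) F (fun p => χ p.1) hn
    isOpen_ball hL.sob hcs hsR hA hQ hQ0
  -- the right sides vanish
  have z1 : ∫ y in ball (0 : E n) R, Phi f c μ χ (y, f y) * dv (fun z : E n => gs μ (z - f c)) (f y) * (F y).det = 0 := by
    have : (fun y => Phi f c μ χ (y, f y) * dv (fun z : E n => gs μ (z - f c)) (f y) * (F y).det) = fun _ => 0 := by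
      funext y
      by_cases hy : y ∈ tsupport χ
      · rw [dv_gs hSMO hn hμ (f c) (f y) (hbd y hy).1]; ring
      · rw [hP0 y hy]; ring
    rw [this, integral_zero]
  have z2 : ∫ y in ball (0 : E n) R, Phi f c μ χ (y, f y) * dv (fun y : E n => gs μ (y - c)) y = 0 := by
    have : (fun y => Phi f c μ χ (y, f y) * dv (fun y : E n => gs μ (y - c)) y) = fun _ => 0 := by
      funext y
      by_cases hy : y ∈ tsupport χ
      · rw [dv_gs hSMO hn hμ c y (hbd y hy).2]; ring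
      · rw [hP0 y hy]; ring
    rw [this, integral_zero]
  rw [z1, neg_zero] at e1
  rw [z2, neg_zero] at e2
  have hGf : ∀ y ∈ tsupport χ, adjV (F y) (gs μ (f y - f c)) - gs μ (y - c) = Gf f F c y := by
    intro y hy
    rw [(hval _ (hbd y hy).1).2.1, (hval _ (hbd y hy).2).2.1]
    rfl
  have hdχ : ∀ y, y ∉ tsupport χ → fderiv ℝ χ y = 0 := by
    intro y hy
    have h1 : χ =ᶠ[𝓝 y] fun _ => (0 : ℝ) := notMem_tsupport_iff_eventuallyEq.1 hy
    rw [h1.fderiv_eq, fderiv_fun_const]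
    rfl
  -- the sum
  have hsum : (fun y => inner ℝ (adjV (F y) (gs μ (f y - f c))) (grc (Phi f c μ χ) f F y) -
      inner ℝ (gs μ (y - c)) (grc (Phi f c μ χ) f F y)) =
      fun y => χ y * inner ℝ (Gf f F c y) (Wf f F c y) +
        wf f c y * inner ℝ (Gf f F c y) (gr (fderiv ℝ χ y)) := by
    funext y
    by_cases hy : y ∈ tsupport χ
    · rw [← inner_sub_left, hGf y hy, grc_Phi hSMO hn f F c hμ hχ y (hbd y hy).1 (hbd y hy).2,
        inner_add_right, inner_smul_right, inner_smul_right]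
      ring
    · rw [grc_of_notMem hSc hP0 y hy, hχ0 y hy, hdχ y hy, gr_zero]
      simp
  have hh : (fun y => inner ℝ (adjV (F y) (gs μ (f y - f c))) (grc (fun p : E n × E n => χ p.1) f F y) -
      inner ℝ (gs μ (y - c)) (grc (fun p : E n × E n => χ p.1) f F y)) =
      fun y => inner ℝ (Gf f F c y) (gr (fderiv ℝ χ y)) := by
    funext y
    rw [grc_fst f F hχ y]
    by_cases hy : y ∈ tsupport χ
    · rw [← inner_sub_left, hGf y hy]
    · rw [hdχ y hy, gr_zero]
      simp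
  have isum : IntegrableOn (fun y => χ y * inner ℝ (Gf f F c y) (Wf f F c y) +
        wf f c y * inner ℝ (Gf f F c y) (gr (fderiv ℝ χ y))) (ball 0 R) := by
    rw [← hsum]; exact i1.sub i2
  have ih : IntegrableOn (fun y => inner ℝ (Gf f F c y) (gr (fderiv ℝ χ y))) (ball 0 R) := by
    rw [← hh]; exact j1.sub j2
  have hwf : ContinuousOn (fun y => wf f c y) (tsupport χ) := by
    unfold wf
    refine ContinuousOn.sub ?_ ?_
    · refine ContinuousOn.log ((hL.cont.mono hsR).sub continuousOn_const).norm (fun y hy => ?_)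
      exact (hμ.trans_le (hbd y hy).1).ne'
    · refine ContinuousOn.log (continuousOn_id.sub continuousOn_const).norm (fun y hy => ?_)
      exact (hμ.trans_le (hbd y hy).2).ne'
  have iw : IntegrableOn (fun y => wf f c y * inner ℝ (Gf f F c y) (gr (fderiv ℝ χ y))) (ball 0 R) := by
    have h1 : IntegrableOn (fun y => wf f c y * inner ℝ (Gf f F c y) (gr (fderiv ℝ χ y))) (tsupport χ) :=
      (ih.mono_set hsR).continuousOn_mul hwf hcs
    refine h1.of_forall_diff_eq_zero measurableSet_ball (fun y hy => ?_)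
    rw [hdχ y hy.2, gr_zero, inner_zero_right, mul_zero]
  have i3 : IntegrableOn (fun y => χ y * inner ℝ (Gf f F c y) (Wf f F c y)) (ball 0 R) := by
    have h1 := isum.sub iw
    refine h1.congr_fun (fun y _ => ?_) measurableSet_ball
    simp
  refine ⟨i3, ?_⟩
  have e3 : ∫ y in ball (0 : E n) R, (χ y * inner ℝ (Gf f F c y) (Wf f F c y) +
        wf f c y * inner ℝ (Gf f F c y) (gr (fderiv ℝ χ y))) = 0 := by
    rw [← hsum, integral_sub i1 i2, e1, e2, sub_zero]
  rw [integral_add i3 iw] at e3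
  linarith

end Pool.Agent.SKQ.H90
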